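import Pool.Agent.Y318.MH.Stm2

set_option autoImplicit false

/-! # The gradient step increases the Hessian strictly (helper of the project MH) -/

open Set Filter Topology

namespace Pool.Agent.Y331.MH

open Pool.Agent.Y318.MH

/-- The derivative of a `C²` function along a curve through a critical point. -/
theorem curve {d : ℕ} (H : (Fin d → ℝ) → ℝ) (γ γ' : ℝ → (Fin d → ℝ)) (hH : ContDiff ℝ 2 H)
    (hγ : ∀ s, HasDerivAt γ (γ' s) s) (hγ' : ContinuousAt γ' 0) (h0 : fderiv ℝ H (γ 0) = 0) :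
    (∀ s, HasDerivAt (fun s => H (γ s)) (fderiv ℝ H (γ s) (γ' s)) s) ∧
    Tendsto (fun s : ℝ => s⁻¹ * fderiv ℝ H (γ s) (γ' s)) (𝓝[≠] 0)
      (𝓝 (hess H (γ 0) (γ' 0) (γ' 0))) := by
  constructor
  · intro s
    have h1 : HasFDerivAt H (fderiv ℝ H (γ s)) (γ s) :=
      (hH.differentiable two_ne_zero _).hasFDerivAt
    exact h1.comp_hasDerivAt s (hγ s)
  · have hd : ContDiff ℝ 1 (fderiv ℝ H) := hH.fderiv_right (by norm_num)
    have h1 : HasFDerivAt (fderiv ℝ H) (hess H (γ 0)) (γ 0) :=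
      (hd.differentiable one_ne_zero _).hasFDerivAt
    have h2 : HasDerivAt (fun s => fderiv ℝ H (γ s)) (hess H (γ 0) (γ' 0)) 0 :=
      h1.comp_hasDerivAt 0 (hγ 0)
    rw [hasDerivAt_iff_tendsto_slope_zero] at h2
    have h3 : Tendsto γ' (𝓝[≠] 0) (𝓝 (γ' 0)) := hγ'.tendsto.mono_left nhdsWithin_le_nhds
    have h4 : Tendsto (fun s : ℝ => (s⁻¹ • (fderiv ℝ H (γ (0 + s)) - fderiv ℝ H (γ 0))) (γ' s))
        (𝓝[≠] 0) (𝓝 (hess H (γ 0) (γ' 0) (γ' 0))) := 
      ((isBoundedBilinearMap_apply (𝕜 := ℝ) (E := Fin d → ℝ) (F := ℝ)).continuous.tendsto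
        (hess H (γ 0) (γ' 0), γ' 0)).comp (h2.prodMk_nhds h3)
    refine h4.congr fun s => ?_
    rw [zero_add, h0, sub_zero]
    rfl

/-- A function with a minimum at `0` and slope of the derivative tending to `D` has `D ≥ 0`. -/
theorem nonneg_of_min (χ χ' : ℝ → ℝ) (D : ℝ) (h : ∀ s, HasDerivAt χ (χ' s) s)
    (hD : Tendsto (fun s : ℝ => s⁻¹ * χ' s) (𝓝[≠] 0) (𝓝 D)) (hmin : ∀ s, χ 0 ≤ χ s) : 0 ≤ D := by
  by_contra hc
  push Not at hc
  have h1 : ∀ᶠ s in 𝓝[≠] (0 : ℝ), s⁻¹ * χ' s < 0 := hD.eventually (gt_mem_nhds hc)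
  rw [eventually_nhdsWithin_iff, Metric.eventually_nhds_iff] at h1
  obtain ⟨ε, hε, h2⟩ := h1
  have h3 : ∀ s, 0 < s → s < ε → χ' s < 0 := by
    intro s hs hsε
    have h4 := h2 (y := s) (by rw [Real.dist_eq, sub_zero, abs_of_pos hs]; exact hsε)
      (by simpa using hs.ne')
    have h5 : χ' s = s * (s⁻¹ * χ' s) := by
      rw [← mul_assoc, mul_inv_cancel₀ hs.ne', one_mul]
    rw [h5]
    exact mul_neg_of_pos_of_neg hs h4
  have h6 : StrictAntiOn χ (Icc 0 (ε / 2)) := by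
    refine strictAntiOn_of_deriv_neg (convex_Icc _ _)
      (fun s _ => (h s).continuousAt.continuousWithinAt) ?_
    intro s hs
    rw [interior_Icc] at hs
    rw [(h s).deriv]
    exact h3 s hs.1 (by linarith [hs.2])
  have h7 := h6 (left_mem_Icc.mpr (by linarith)) (right_mem_Icc.mpr (by linarith))
    (show (0 : ℝ) < ε / 2 by linarith)
  linarith [hmin (ε / 2)]

theorem hess_le {d : ℕ} (H : (Fin d → ℝ) → ℝ) (F : (Fin d → ℝ) → (Fin d → ℝ))
    (z : Fin d → ℝ) (hH : ContDiff ℝ 2 H) (hF : ContDiff ℝ 1 F) (hle : ∀ w, H w ≤ H (F w))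
    (heq : H (F z) = H z) (hz : fderiv ℝ H z = 0) (hFz : fderiv ℝ H (F z) = 0) (v : Fin d → ℝ) :
    hess H z v v ≤ hess H (F z) (fderiv ℝ F z v) (fderiv ℝ F z v) := by
  have hl : ∀ s : ℝ, HasDerivAt (fun t : ℝ => z + t • v) v s := by
    intro s
    simpa using ((hasDerivAt_id s).smul_const v).const_add z
  have h1 := curve H (fun t => z + t • v) (fun _ => v) hH hl continuousAt_const
    (by simpa using hz)
  have hFl : ∀ s : ℝ, HasDerivAt (fun t : ℝ => F (z + t • v)) (fderiv ℝ F (z + s • v) v) s := by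
    intro s
    have h2 : HasFDerivAt F (fderiv ℝ F (z + s • v)) (z + s • v) :=
      (hF.differentiable one_ne_zero _).hasFDerivAt
    exact h2.comp_hasDerivAt s (hl s)
  have hcont : ContinuousAt (fun s : ℝ => fderiv ℝ F (z + s • v) v) 0 := by
    have h3 : Continuous (fderiv ℝ F) := hF.continuous_fderiv one_ne_zero
    have h4 : Continuous (fun s : ℝ => fderiv ℝ F (z + s • v) v) :=
      (h3.comp (by fun_prop : Continuous fun s : ℝ => z + s • v)).clm_apply continuous_const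
    exact h4.continuousAt
  have h2 := curve H (fun t => F (z + t • v)) (fun s => fderiv ℝ F (z + s • v) v) hH hFl hcont
    (by simpa using hFz)
  have h3 := nonneg_of_min (fun s => H (F (z + s • v)) - H (z + s • v))
    (fun s => fderiv ℝ H (F (z + s • v)) (fderiv ℝ F (z + s • v) v) - fderiv ℝ H (z + s • v) v)
    (hess H (F z) (fderiv ℝ F z v) (fderiv ℝ F z v) - hess H z v v)
    (fun s => (h2.1 s).sub (h1.1 s)) ?_ ?_
  · linarith
  · have h4 := h2.2.sub h1.2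
    simp only [zero_smul, add_zero] at h4
    refine h4.congr fun s => ?_
    ring
  · intro s
    simp only [zero_smul, add_zero]
    linarith [hle (z + s • v)]

/-- The derivative of the gradient. -/
noncomputable def Sm {d : ℕ} (H : (Fin d → ℝ) → ℝ) (p : Fin d → ℝ) :
    (Fin d → ℝ) →L[ℝ] (Fin d → ℝ) :=
  ContinuousLinearMap.pi fun i =>
    (ContinuousLinearMap.apply ℝ ℝ (Pi.single i 1 : Fin d → ℝ)).comp (hess H p)

theorem Sm_apply {d : ℕ} (H : (Fin d → ℝ) → ℝ) (p w : Fin d → ℝ) (i : Fin d) :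
    Sm H p w i = hess H p w (Pi.single i 1) := rfl

theorem grad_deriv {d : ℕ} (H : (Fin d → ℝ) → ℝ) (p : Fin d → ℝ) (hH : ContDiff ℝ 2 H) :
    HasFDerivAt (grad H) (Sm H p) p := by
  have hd : ContDiff ℝ 1 (fderiv ℝ H) := hH.fderiv_right (by norm_num)
  have h1 : HasFDerivAt (fderiv ℝ H) (hess H p) p :=
    (hd.differentiable one_ne_zero _).hasFDerivAt
  rw [hasFDerivAt_pi']
  intro i
  exact (ContinuousLinearMap.apply ℝ ℝ (Pi.single i 1 : Fin d → ℝ)).hasFDerivAt.comp p h1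

theorem hess_apply {d : ℕ} (H : (Fin d → ℝ) → ℝ) (p w u : Fin d → ℝ) :
    hess H p w u = ∑ i, u i * Sm H p w i := by
  conv_lhs => rw [← Finset.univ_sum_single u]
  rw [map_sum]
  refine Finset.sum_congr rfl fun i _ => ?_
  have : (Pi.single i (u i) : Fin d → ℝ) = u i • Pi.single i 1 := by
    ext j
    by_cases h : j = i
    · subst h; simp
    · simp [h]
  rw [this, map_smul]
  rfl

theorem hess_symm {d : ℕ} (H : (Fin d → ℝ) → ℝ) (p : Fin d → ℝ) (hH : ContDiff ℝ 2 H)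
    (v w : Fin d → ℝ) : hess H p v w = hess H p w v :=
  (hH.contDiffAt.isSymmSndFDerivAt (by simp)) v w

theorem t_HESS : Pool.Agent.Y318.MH.S_HESS := by
  intro d H F z hH hF hle heq hz hFz hinj hnd
  set p := F z with hp
  set B := hess H p with hB
  set L := fderiv ℝ F z with hL
  have hSinj : ∀ v, Sm H p (L v) = 0 → v = 0 := by
    intro v hv
    apply hinj
    apply hnd
    intro w
    rw [hess_apply, hv]
    simp
  obtain ⟨K', hK', hanti⟩ := LinearMap.exists_antilipschitzWith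
    ((Sm H p).comp L : (Fin d → ℝ) →ₗ[ℝ] (Fin d → ℝ)) (by
      rw [LinearMap.ker_eq_bot']
      intro v hv
      exact hSinj v hv)
  have hv : ∀ v : Fin d → ℝ, ‖v‖ ≤ K' * ‖Sm H p (L v)‖ := by
    intro v
    have := hanti.le_mul_dist v 0
    simpa using this
  refine ⟨1 / (‖B‖ + 1), by positivity, ?_⟩
  intro δ hδ hδ1
  have hK'0 : (0 : ℝ) < K' := by exact_mod_cast hK'
  refine ⟨δ / (K' : ℝ) ^ 2, by positivity, ?_⟩
  intro v
  have e1 : fderiv ℝ (fun w => F w + δ • grad H (F w)) z v = L v + δ • Sm H p (L v) := by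
    have h1 : HasFDerivAt F L z := (hF.differentiable one_ne_zero _).hasFDerivAt
    have h2 : HasFDerivAt (fun w => grad H (F w)) ((Sm H p).comp L) z :=
      (grad_deriv H p hH).comp z h1
    have h3 := h1.add (h2.const_smul δ)
    have h4 : HasFDerivAt (fun w => F w + δ • grad H (F w)) (L + δ • (Sm H p).comp L) z := h3
    rw [h4.fderiv]
    rfl
  rw [e1]
  set w := L v with hw
  set S := Sm H p w with hS
  have e2 : B (w + δ • S) (w + δ • S) = B w w + 2 * δ * Pool.Agent.Y318.MH.sq S + δ ^ 2 * B S S := by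
    have a1 : B w S = Pool.Agent.Y318.MH.sq S := by
      rw [hB, hess_apply, Pool.Agent.Y318.MH.sq]
      exact Finset.sum_congr rfl fun i _ => by ring
    have a2 : B S w = Pool.Agent.Y318.MH.sq S := by
      rw [hB, hess_symm H p hH, ← hB, a1]
    rw [map_add, map_add, add_apply, add_apply, map_smul,
      map_smul, map_smul, smul_apply, smul_apply, a1, a2]
    simp only [smul_eq_mul]
    ring
  rw [e2]
  have e3 : hess H z v v ≤ B w w := hess_le H F z hH hF hle heq hz hFz v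
  have e4 : |B S S| ≤ ‖B‖ * Pool.Agent.Y318.MH.sq S := by
    have a1 : |B S S| ≤ ‖B‖ * ‖S‖ * ‖S‖ := by
      rw [← Real.norm_eq_abs]
      exact B.le_opNorm₂ S S
    have a2 := norm_sq_le S
    have a3 : ‖B‖ * ‖S‖ ^ 2 ≤ ‖B‖ * Pool.Agent.Y318.MH.sq S := mul_le_mul_of_nonneg_left a2 (norm_nonneg B)
    nlinarith
  have e5 : δ * ‖B‖ ≤ 1 := by
    rw [le_div_iff₀ (by positivity)] at hδ1
    nlinarith
  have e6 : ‖v‖ ^ 2 ≤ (K' : ℝ) ^ 2 * Pool.Agent.Y318.MH.sq S := by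
    have a1 := hv v
    have a2 : ‖v‖ ^ 2 ≤ ((K' : ℝ) * ‖S‖) ^ 2 := pow_le_pow_left₀ (norm_nonneg _) a1 2
    rw [mul_pow] at a2
    exact a2.trans (mul_le_mul_of_nonneg_left (norm_sq_le S) (by positivity))
  have e7 : δ / (K' : ℝ) ^ 2 * ‖v‖ ^ 2 ≤ δ * Pool.Agent.Y318.MH.sq S := by
    rw [div_mul_eq_mul_div, div_le_iff₀ (by positivity)]
    nlinarith
  have e8 : 0 ≤ Pool.Agent.Y318.MH.sq S := sq_nonneg' S
  have e9 : -(δ * Pool.Agent.Y318.MH.sq S) ≤ δ ^ 2 * B S S := by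
    have a1 := (abs_le.1 e4).1
    have a2 : δ ^ 2 * -(‖B‖ * Pool.Agent.Y318.MH.sq S) ≤ δ ^ 2 * B S S :=
      mul_le_mul_of_nonneg_left a1 (by positivity)
    have a3 : δ ^ 2 * (‖B‖ * Pool.Agent.Y318.MH.sq S) ≤ δ * Pool.Agent.Y318.MH.sq S := by
      have a4 : (δ * ‖B‖) * (δ * Pool.Agent.Y318.MH.sq S) ≤ 1 * (δ * Pool.Agent.Y318.MH.sq S) :=
        mul_le_mul_of_nonneg_right e5 (by positivity)
      nlinarith
    linarith
  linarith

end Pool.Agent.Y331.MH
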